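import Pool.Agent.Helper44.SH.Dist

/- Copied from `Pool/Graph/R_seed8/Helper282/{DistA,DistR}.lean` of the library: right partitions,
element forms of distributivity and the division ring of fractions. -/

set_option autoImplicit false

namespace Pool.Agent.H44SH

section pt
variable {K : Type*} [DivisionRing K] {A : Subring K} {M : Set K} {ι : Type*}

/-- `n`-element right partitions -/
theorem part (hR : RP A) (a : ι → K) (ha : ∀ i, a i ≠ 0) (s : Finset ι)
    (hs : s.Nonempty) :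
    ∃ r : ι → K, (∀ i ∈ s, r i ∈ A) ∧ ∑ i ∈ s, r i = 1 ∧
      ∀ i ∈ s, ∀ j ∈ s, a j * (a i)⁻¹ * r i ∈ A := by
  classical
  induction s using Finset.induction_on with
  | empty => exact absurd hs (by simp)
  | insert k s hk ih =>
    rcases s.eq_empty_or_nonempty with rfl | hs'
    · refine ⟨fun _ => 1, by simp [A.one_mem], by simp, ?_⟩
      intro i hi j hj
      simp only [insert_empty_eq, Finset.mem_singleton] at hi hj
      subst hi; subst hj
      rw [mul_inv_cancel₀ (ha _), one_mul]; exact A.one_mem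
    obtain ⟨r, hrA, hr1, hra⟩ := ih hs'
    have hσ : ∀ i : ι, ∃ σ : K, i ∈ s → σ ∈ A ∧ a k * (a i)⁻¹ * r i * σ ∈ A ∧
        ∀ j ∈ insert k s, a j * (a k)⁻¹ * r i * (1 - σ) ∈ A := by
      intro i
      by_cases hi : i ∈ s
      swap
      · exact ⟨0, fun h => absurd h hi⟩
      by_cases hri : r i = 0
      · refine ⟨1, fun _ => ⟨A.one_mem, ?_, ?_⟩⟩
        · rw [hri]; simp [A.zero_mem]
        · intro j _; rw [hri]; simp [A.zero_mem]
      have hx : (r i)⁻¹ * (a k * (a i)⁻¹ * r i) ≠ 0 :=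
        mul_ne_zero (inv_ne_zero hri) (mul_ne_zero (mul_ne_zero (ha k) (inv_ne_zero (ha i))) hri)
      obtain ⟨σ, hσ, h1, h2⟩ := hR _ hx
      refine ⟨σ, fun _ => ⟨hσ, ?_, ?_⟩⟩
      · have : a k * (a i)⁻¹ * r i * σ = r i * ((r i)⁻¹ * (a k * (a i)⁻¹ * r i) * σ) := by
          rw [mul_assoc (r i)⁻¹, mul_inv_cancel_left₀ hri]
        rw [this]; exact A.mul_mem (hrA i hi) h1
      · have e2 : ((r i)⁻¹ * (a k * (a i)⁻¹ * r i))⁻¹ = (r i)⁻¹ * (a i * (a k)⁻¹ * r i) := by
          simp [mul_inv_rev, mul_assoc]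
        rw [e2] at h2
        have h3 : ∀ j, a j * (a k)⁻¹ * r i * (1 - σ)
            = (a j * (a i)⁻¹ * r i) * ((r i)⁻¹ * (a i * (a k)⁻¹ * r i) * (1 - σ)) := by
          intro j
          simp only [mul_assoc]
          rw [mul_inv_cancel_left₀ hri, inv_mul_cancel_left₀ (ha i)]
        intro j hj
        rcases Finset.mem_insert.1 hj with rfl | hj
        · rw [mul_inv_cancel₀ (ha _), one_mul]
          have h4 : r i * (1 - σ) ∈ A := A.mul_mem (hrA i hi) (A.sub_mem A.one_mem hσ)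
          exact h4
        · rw [h3 j]; exact A.mul_mem (hra i hi j hj) h2
    choose σ hσ using hσ
    refine ⟨fun i => if i = k then ∑ j ∈ s, r j * (1 - σ j) else r i * σ i, ?_, ?_, ?_⟩
    · intro i hi
      by_cases hik : i = k
      · simp only [hik, if_true]
        exact A.sum_mem fun j hj =>
          A.mul_mem (hrA j hj) (A.sub_mem A.one_mem (hσ j hj).1)
      · simp only [hik, if_false]
        have his : i ∈ s := by
          rcases Finset.mem_insert.1 hi with h | h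
          · exact absurd h hik
          · exact h
        exact A.mul_mem (hrA i his) (hσ i his).1
    · rw [Finset.sum_insert hk, if_pos rfl]
      have : ∑ x ∈ s, (if x = k then ∑ j ∈ s, r j * (1 - σ j) else r x * σ x)
          = ∑ x ∈ s, r x * σ x := by
        refine Finset.sum_congr rfl fun x hx => ?_
        rw [if_neg]; rintro rfl; exact hk hx
      rw [this, ← Finset.sum_add_distrib]
      refine Eq.trans (Finset.sum_congr rfl fun x _ => ?_) hr1
      noncomm_ring
    · intro i hi j hj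
      by_cases hik : i = k
      · subst hik
        simp only [if_true]
        rw [Finset.mul_sum]
        refine A.sum_mem fun l hl => ?_
        rw [← mul_assoc]
        exact (hσ l hl).2.2 j hj
      · simp only [hik, if_false]
        have his : i ∈ s := by
          rcases Finset.mem_insert.1 hi with h | h
          · exact absurd h hik
          · exact h
        rw [← mul_assoc]
        rcases Finset.mem_insert.1 hj with rfl | hj
        · exact (hσ i his).2.1
        · exact A.mul_mem (hra i his j hj) (hσ i his).1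

end pt

universe u

/-- element form of left distributivity -/
theorem elemL (R : Type u) [Ring R]
    (h : ∀ a b c : Submodule R R, a ⊓ (b ⊔ c) = (a ⊓ b) ⊔ (a ⊓ c)) (a b : R) :
    ∃ s t u v : R, s + t = 1 ∧ s * a = u * b ∧ t * b = v * a := by
  have h1 : a ∈ Submodule.span R {a} ⊓ (Submodule.span R {b} ⊔ Submodule.span R {a - b}) := by
    refine ⟨Submodule.mem_span_singleton_self a, ?_⟩
    have e : a = b + (a - b) := by abel
    rw [e]
    exact Submodule.add_mem_sup (Submodule.mem_span_singleton_self b)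
      (by rw [← e]; exact Submodule.mem_span_singleton_self _)
  rw [h] at h1
  obtain ⟨x, hx, y, hy, hxy⟩ := Submodule.mem_sup.1 h1
  obtain ⟨hxa, hxb⟩ := hx
  obtain ⟨hya, hyb⟩ := hy
  obtain ⟨x1, hx1⟩ := Submodule.mem_span_singleton.1 hxa
  obtain ⟨x2, hx2⟩ := Submodule.mem_span_singleton.1 hxb
  obtain ⟨y1, hy1⟩ := Submodule.mem_span_singleton.1 hya
  obtain ⟨w, hw⟩ := Submodule.mem_span_singleton.1 hyb
  simp only [smul_eq_mul] at hx1 hx2 hy1 hw
  -- `s = 1 - w`, `t = w`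
  refine ⟨1 - w, w, x2 - w, w - y1, by abel, ?_, ?_⟩
  · have h2 : w * a - w * b = y := by rw [← hw, mul_sub]
    have h3 : w * a = y + w * b := by rw [← h2]; abel
    have h4 : (1 - w) * a = x - w * b := by
      rw [sub_mul, one_mul, h3]; nth_rewrite 1 [← hxy]; abel
    rw [h4, ← hx2, sub_mul]
  · have h2 : w * a - w * b = y := by rw [← hw, mul_sub]
    rw [sub_mul, hy1, ← h2]; abel

/-- element form of right distributivity -/
theorem elemR (R : Type u) [Ring R]
    (h : ∀ a b c : Submodule Rᵐᵒᵖ R, a ⊓ (b ⊔ c) = (a ⊓ b) ⊔ (a ⊓ c)) (a b : R) :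
    ∃ s t u v : R, s + t = 1 ∧ a * s = b * u ∧ b * t = a * v := by
  have h1 : a ∈ Submodule.span Rᵐᵒᵖ {a} ⊓
      (Submodule.span Rᵐᵒᵖ {b} ⊔ Submodule.span Rᵐᵒᵖ {a - b}) := by
    refine ⟨Submodule.mem_span_singleton_self a, ?_⟩
    have e : a = b + (a - b) := by abel
    rw [e]
    exact Submodule.add_mem_sup (Submodule.mem_span_singleton_self b)
      (by rw [← e]; exact Submodule.mem_span_singleton_self _)
  rw [h] at h1
  obtain ⟨x, hx, y, hy, hxy⟩ := Submodule.mem_sup.1 h1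
  obtain ⟨hxa, hxb⟩ := hx
  obtain ⟨hya, hyb⟩ := hy
  obtain ⟨x1, hx1⟩ := Submodule.mem_span_singleton.1 hxa
  obtain ⟨x2, hx2⟩ := Submodule.mem_span_singleton.1 hxb
  obtain ⟨y1, hy1⟩ := Submodule.mem_span_singleton.1 hya
  obtain ⟨w, hw⟩ := Submodule.mem_span_singleton.1 hyb
  rw [MulOpposite.smul_eq_mul_unop] at hx1 hx2 hy1 hw
  refine ⟨1 - w.unop, w.unop, x2.unop - w.unop, w.unop - y1.unop, by abel, ?_, ?_⟩
  · have h2 : a * w.unop - b * w.unop = y := by rw [← hw, sub_mul]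
    have h3 : a * w.unop = y + b * w.unop := by rw [← h2]; abel
    have h4 : a * (1 - w.unop) = x - b * w.unop := by
      rw [mul_sub, mul_one, h3]; nth_rewrite 1 [← hxy]; abel
    rw [h4, ← hx2, mul_sub]
  · have h2 : a * w.unop - b * w.unop = y := by rw [← hw, sub_mul]
    rw [mul_sub, hy1, ← h2]; abel

/-- the division ring of fractions -/
theorem exists_frac (R : Type u) [Ring R] [IsDomain R]
    (h : ∀ a b : R, ∃ s t u v : R, s + t = 1 ∧ s * a = u * b ∧ t * b = v * a) :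
    ∃ (K : Type u) (_ : DivisionRing K) (φ : R →+* K), Function.Injective φ ∧
      ∀ x : K, ∃ s a : R, s ≠ 0 ∧ x = (φ s)⁻¹ * φ a := by
  have hO : Nonempty (OreLocalization.OreSet (nonZeroDivisors R)) := by
    rw [OreLocalization.nonempty_oreSet_iff_of_noZeroDivisors]
    intro r s
    have hs : (s : R) ≠ 0 := nonZeroDivisors.ne_zero s.2
    obtain ⟨x, t, u, v, h1, h2, h3⟩ := h r s
    by_cases hx : x = 0
    · have ht : t = 1 := by rw [← h1, hx, zero_add]
      rw [ht, one_mul] at h3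
      have hv : v ≠ 0 := by
        rintro rfl; rw [zero_mul] at h3; exact hs h3
      exact ⟨1, ⟨v, mem_nonZeroDivisors_of_ne_zero hv⟩, by simpa using h3.symm⟩
    · exact ⟨u, ⟨x, mem_nonZeroDivisors_of_ne_zero hx⟩, h2⟩
  obtain ⟨hO⟩ := hO
  letI := hO
  refine ⟨OreLocalization (nonZeroDivisors R) R, inferInstance,
    OreLocalization.numeratorRingHom, ?_, ?_⟩
  · exact OreLocalization.numeratorHom_inj (by
      intro x hx
      exact ((mem_nonZeroDivisors_iff (M₀ := R)).1 hx).1)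
  · intro x
    induction x using OreLocalization.ind with
    | _ a s =>
    refine ⟨s, a, nonZeroDivisors.ne_zero s.2, ?_⟩
    have hs : (OreLocalization.numeratorRingHom (s : R) :
        OreLocalization (nonZeroDivisors R) R) ≠ 0 := by
      intro h0
      have := OreLocalization.numeratorHom_inj (S := nonZeroDivisors R) (R := R) (by
        intro x hx
        exact ((mem_nonZeroDivisors_iff (M₀ := R)).1 hx).1) (h0.trans
          (map_zero OreLocalization.numeratorRingHom).symm)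
      exact nonZeroDivisors.ne_zero s.2 this
    rw [eq_inv_mul_iff_mul_eq₀ hs]
    change ((s : R) /ₒ (1 : nonZeroDivisors R)) * (a /ₒ s) = a /ₒ 1
    rw [OreLocalization.mul_cancel]

section frac
variable {R : Type u} [Ring R] [IsDomain R] {K : Type u} [DivisionRing K] (φ : R →+* K)

theorem frac_RP (hφ : Function.Injective φ)
    (hfrac : ∀ x : K, ∃ s a : R, s ≠ 0 ∧ x = (φ s)⁻¹ * φ a)
    (hR : ∀ a b : R, ∃ s t u v : R, s + t = 1 ∧ a * s = b * u ∧ b * t = a * v) :
    RP φ.range := by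
  intro x hx
  obtain ⟨s, a, hs, rfl⟩ := hfrac x
  have hs' : φ s ≠ 0 := fun h => hs (hφ (by rw [h, map_zero]))
  have ha' : φ a ≠ 0 := fun h => hx (by rw [h, mul_zero])
  obtain ⟨ρ, t, u, v, h1, h2, h3⟩ := hR a s
  refine ⟨φ ρ, ⟨ρ, rfl⟩, ⟨u, ?_⟩, ⟨v, ?_⟩⟩
  · rw [mul_assoc, ← map_mul, h2, map_mul, inv_mul_cancel_left₀ hs']
  · have ht : 1 - φ ρ = φ t := by rw [← map_one φ, ← h1, map_add]; abel
    rw [ht, mul_inv_rev, inv_inv, mul_assoc, ← map_mul, h3, map_mul, inv_mul_cancel_left₀ ha']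

theorem frac_right (hφ : Function.Injective φ)
    (hfrac : ∀ x : K, ∃ s a : R, s ≠ 0 ∧ x = (φ s)⁻¹ * φ a)
    (hR : ∀ a b : R, ∃ s t u v : R, s + t = 1 ∧ a * s = b * u ∧ b * t = a * v)
    (x : K) (hx : x ≠ 0) : ∃ c d : R, c ≠ 0 ∧ d ≠ 0 ∧ x = φ c * (φ d)⁻¹ := by
  obtain ⟨r, ⟨ρ, rfl⟩, ⟨u, hu⟩, ⟨v, hv⟩⟩ := frac_RP φ hφ hfrac hR x hx
  by_cases hρ : φ ρ = 0
  · rw [hρ, sub_zero, mul_one] at hv
    have hv0 : φ v ≠ 0 := by rw [hv]; exact inv_ne_zero hx
    refine ⟨1, v, one_ne_zero, fun h => hv0 (by rw [h, map_zero]), ?_⟩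
    rw [map_one, one_mul, hv, inv_inv]
  · have hu0 : φ u ≠ 0 := by rw [hu]; exact mul_ne_zero hx hρ
    refine ⟨u, ρ, fun h => hu0 (by rw [h, map_zero]), fun h => hρ (by rw [h, map_zero]), ?_⟩
    rw [hu, mul_inv_cancel_right₀ hρ]

theorem frac_LP (hφ : Function.Injective φ)
    (hfrac : ∀ x : K, ∃ s a : R, s ≠ 0 ∧ x = (φ s)⁻¹ * φ a)
    (hR : ∀ a b : R, ∃ s t u v : R, s + t = 1 ∧ a * s = b * u ∧ b * t = a * v)
    (hL : ∀ a b : R, ∃ s t u v : R, s + t = 1 ∧ s * a = u * b ∧ t * b = v * a) :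
    LP φ.range := by
  intro x hx
  obtain ⟨c, d, hc, hd, rfl⟩ := frac_right φ hφ hfrac hR x hx
  have hc' : φ c ≠ 0 := fun h => hc (hφ (by rw [h, map_zero]))
  have hd' : φ d ≠ 0 := fun h => hd (hφ (by rw [h, map_zero]))
  obtain ⟨s, t, u, v, h1, h2, h3⟩ := hL c d
  refine ⟨φ s, ⟨s, rfl⟩, ⟨u, ?_⟩, ⟨v, ?_⟩⟩
  · rw [← mul_assoc, ← map_mul, h2, map_mul, mul_inv_cancel_right₀ hd']
  · have ht : 1 - φ s = φ t := by rw [← map_one φ, ← h1, map_add]; abel
    rw [ht, mul_inv_rev, inv_inv, ← mul_assoc, ← map_mul, h3, map_mul,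
      mul_inv_cancel_right₀ hc']

end frac

section op
variable {K : Type*} [DivisionRing K] {A : Subring K}

theorem LP_op (h : RP A) : LP A.op := by
  intro x hx
  obtain ⟨r, hr, h1, h2⟩ := h x.unop (fun h0 => hx ((MulOpposite.unop_eq_zero_iff _).1 h0))
  exact ⟨MulOpposite.op r, hr, h1, h2⟩

theorem RP_op (h : LP A) : RP A.op := by
  intro x hx
  obtain ⟨r, hr, h1, h2⟩ := h x.unop (fun h0 => hx ((MulOpposite.unop_eq_zero_iff _).1 h0))
  exact ⟨MulOpposite.op r, hr, h1, h2⟩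

theorem Pl_unop {M : Set Kᵐᵒᵖ} (h : Pl A.op M) : Pl A (MulOpposite.op ⁻¹' M) where
  sub x hx := h.sub _ hx
  zero := h.zero
  add x hx y hy := h.add _ hx _ hy
  lmul a ha x hx := h.rmul (MulOpposite.op a) ha _ hx
  rmul a ha x hx := h.lmul (MulOpposite.op a) ha _ hx
  one := h.one
  inv a ha haM := by
    obtain ⟨b, hb, h1, h2⟩ := h.inv (MulOpposite.op a) ha haM
    exact ⟨b.unop, hb, h2, h1⟩

end op

end Pool.Agent.H44SH
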