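import Pool.Agent.Helper44.SH.Mod

set_option autoImplicit false

namespace Pool.Agent.H44SH

universe u

section frac
variable {R : Type u} [Ring R] [IsDomain R] {K : Type u} [DivisionRing K] (φ : R →+* K)
  {ι : Type} [Fintype ι]

/-- local-global principle for submodules -/
theorem mem_of_local (hφ : Function.Injective φ) (hL : LP φ.range)
    {P : Type*} [AddCommGroup P] [Module R P] (N : Submodule R P) (z : P)
    (h : ∀ M, Pl φ.range M → ∃ μ : R, φ μ ∉ M ∧ μ • z ∈ N) : z ∈ N := by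
  have := lg hL {x : K | ∃ μ : R, φ μ = x ∧ μ • z ∈ N} ⟨0, map_zero _, by simp⟩
    (by
      rintro _ ⟨μ, rfl, h1⟩ _ ⟨ν, rfl, h2⟩
      exact ⟨μ + ν, map_add _ _ _, by rw [add_smul]; exact N.add_mem h1 h2⟩)
    (by
      rintro _ ⟨r, rfl⟩ _ ⟨ν, rfl, h2⟩
      exact ⟨r * ν, map_mul _ _ _, by rw [mul_smul]; exact N.smul_mem _ h2⟩)
    (fun M hM => by
      obtain ⟨μ, h1, h2⟩ := h M hM
      exact ⟨φ μ, ⟨μ, rfl⟩, h1, μ, rfl, h2⟩)
  obtain ⟨μ, h1, h2⟩ := this
  have : μ = 1 := hφ (by rw [h1, map_one])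
  rwa [this, one_smul] at h2

/-- the solutions of one equation are finitely generated -/
theorem fg_one (hφ : Function.Injective φ)
    (hL : LP φ.range) (hR : RP φ.range)
    (hel : ∀ a b : R, ∃ s t u v : R, s + t = 1 ∧ s * a = u * b ∧ t * b = v * a)
    (a : ι → R) : (LinearMap.ker (ell a)).FG := by
  classical
  have hφ0 : ∀ r : R, r ≠ 0 → φ r ≠ 0 := fun r hr h => hr (hφ (by rw [h, map_zero]))
  by_cases hne : ∃ i, a i ≠ 0
  swap
  · push Not at hne
    have htop : LinearMap.ker (ell a) = ⊤ := by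
      rw [eq_top_iff]
      intro x _
      rw [LinearMap.mem_ker, ell_apply]; simp [hne]
    rw [htop]
    exact Module.Finite.fg_top
  choose s t u v hst hsu htv using fun i j => hel (a j) (a i)
  -- `s i j * a j = u i j * a i`, `t i j * a i = v i j * a j`
  let G : Set (ι → R) := (Set.range fun p : ι × ι =>
      (Pi.single p.2 (s p.1 p.2) - Pi.single p.1 (u p.1 p.2) : ι → R)) ∪
    (Set.range fun p : ι × ι =>
      (Pi.single p.2 (v p.1 p.2) - Pi.single p.1 (t p.1 p.2) : ι → R))
  have hGfin : G.Finite := (Set.finite_range _).union (Set.finite_range _)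
  have hG : Submodule.span R G ≤ LinearMap.ker (ell a) := by
    rw [Submodule.span_le]
    rintro x (⟨p, rfl⟩ | ⟨p, rfl⟩)
    · show _ ∈ LinearMap.ker (ell a)
      rw [LinearMap.mem_ker, map_sub, ell_single, ell_single, hsu, sub_self]
    · show _ ∈ LinearMap.ker (ell a)
      rw [LinearMap.mem_ker, map_sub, ell_single, ell_single, ← htv, sub_self]
  have heq : Submodule.span R G = LinearMap.ker (ell a) := by
    apply le_antisymm hG
    intro z hz
    refine mem_of_local φ hφ hL _ z fun M hM => ?_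
    obtain ⟨i, hi, hpiv⟩ := exists_pivot hM hL hR (fun i => φ (a i))
      ⟨hne.choose, hφ0 _ hne.choose_spec⟩
    -- local generators
    have h1 : ∀ j, ∃ μ μ' : R, φ μ ∉ M ∧
        (Pi.single j μ - Pi.single i μ' : ι → R) ∈ Submodule.span R G := by
      intro j
      by_cases hs : φ (s i j) ∈ M
      · refine ⟨v i j, t i j, ?_, Submodule.subset_span (Or.inr ⟨(i, j), rfl⟩)⟩
        intro hv
        have ht : φ (t i j) ∉ M := by
          intro ht
          apply hM.one
          have := hM.add _ hs _ ht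
          rwa [← map_add, hst, map_one] at this
        apply ht
        have e : φ (v i j) * (φ (a j) * (φ (a i))⁻¹) = φ (t i j) := by
          rw [← mul_assoc, ← map_mul, ← htv, map_mul, mul_assoc, mul_inv_cancel₀ hi, mul_one]
        have h2 := JV hM hL (M_J hM hv) (hpiv j)
        rw [e] at h2
        exact J_A hM h2 ⟨_, rfl⟩
      · exact ⟨s i j, u i j, hs, Submodule.subset_span (Or.inl ⟨(i, j), rfl⟩)⟩
    choose μ μ' hμ hμG using h1
    obtain ⟨_, ⟨d, rfl⟩, hdM, hd⟩ := V_common hM hL Finset.univ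
      (fun j => φ (z j) * (φ (μ j))⁻¹) (fun j _ =>
        V_mul hM hL (A_V hM ⟨_, rfl⟩) (inv_V hM ⟨_, rfl⟩ (hμ j)))
    choose β hβ using fun j => hd j (Finset.mem_univ j)
    have hβ' : ∀ j, d * z j = β j * μ j := by
      intro j
      apply hφ
      rw [map_mul, map_mul, hβ, mul_assoc, mul_assoc,
        inv_mul_cancel₀ (hM.ne_zero (hμ j)), mul_one]
    refine ⟨d, hdM, ?_⟩
    set w : ι → R := ∑ j ∈ Finset.univ.erase i, β j • (Pi.single j (μ j) - Pi.single i (μ' j))
      with hw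
    have hwG : w ∈ Submodule.span R G :=
      Submodule.sum_mem _ fun j _ => Submodule.smul_mem _ _ (hμG j)
    have hdz : d • z - w ∈ LinearMap.ker (ell a) :=
      Submodule.sub_mem _ (Submodule.smul_mem _ _ hz) (hG hwG)
    have h0 : ∀ k, k ≠ i → (d • z - w) k = 0 := by
      intro k hk
      rw [Pi.sub_apply, hw, Finset.sum_apply, Finset.sum_eq_single k]
      · simp only [Pi.smul_apply, Pi.sub_apply, Pi.single_eq_same, smul_eq_mul]
        rw [Pi.single_eq_of_ne hk, sub_zero, hβ', sub_self]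
      · intro b _ hb
        simp only [Pi.smul_apply, Pi.sub_apply, smul_eq_mul]
        rw [Pi.single_eq_of_ne hb.symm, Pi.single_eq_of_ne hk, sub_zero, mul_zero]
      · intro h; exact absurd (Finset.mem_erase.2 ⟨hk, Finset.mem_univ k⟩) h
    have h2 : d • z - w = Pi.single i ((d • z - w) i) := by
      ext j
      by_cases hj : j = i
      · subst hj; rw [Pi.single_eq_same]
      · rw [Pi.single_eq_of_ne hj, h0 j hj]
    rw [h2, LinearMap.mem_ker, ell_single] at hdz
    have hai : a i ≠ 0 := fun h => hi (by simp [h])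
    rcases mul_eq_zero.1 hdz with h | h
    · rw [h, Pi.single_zero, sub_eq_zero] at h2
      rw [h2]; exact hwG
    · exact absurd h hai
  rw [← heq]
  exact ⟨hGfin.toFinset, by rw [Set.Finite.coe_toFinset]⟩

end frac

/-- finitely generated submodules with the extension property for functionals -/
def Gd {R : Type u} [Ring R] {P : Type u} [AddCommGroup P] [Module R P]
    (Z : Submodule R P) : Prop :=
  Z.FG ∧ ∀ f : Z →ₗ[R] R, ∃ g : P →ₗ[R] R, ∀ z : Z, g z = f z

section good
variable {R : Type u} [Ring R]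

theorem Gd.inf {P : Type u} [AddCommGroup P] [Module R P]
    (h1 : ∀ (n : ℕ) (ℓ : (Fin n → R) →ₗ[R] R), Gd (LinearMap.ker ℓ))
    {Z : Submodule R P} (hZ : Gd Z) (ℓ : P →ₗ[R] R) : Gd (Z ⊓ LinearMap.ker ℓ) := by
  classical
  obtain ⟨hfg, hext⟩ := hZ
  haveI : Module.Finite R Z := Module.Finite.iff_fg.2 hfg
  obtain ⟨n, ρ, hρ⟩ := Module.Finite.exists_fin' R Z
  set ℓ' : (Fin n → R) →ₗ[R] R := ℓ ∘ₗ Z.subtype ∘ₗ ρ with hℓ'
  obtain ⟨hfg', hext'⟩ := h1 n ℓ'
  have hmem : ∀ w : Fin n → R, w ∈ LinearMap.ker ℓ' → (Z.subtype ∘ₗ ρ) w ∈ Z ⊓ LinearMap.ker ℓ :=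
    fun w hw => ⟨(ρ w).2, hw⟩
  constructor
  · have : Z ⊓ LinearMap.ker ℓ = (LinearMap.ker ℓ').map (Z.subtype ∘ₗ ρ) := by
      apply le_antisymm
      · rintro z ⟨hz, hz'⟩
        obtain ⟨w, hw⟩ := hρ ⟨z, hz⟩
        refine ⟨w, ?_, by simp [hw]⟩
        change ℓ (ρ w).1 = 0
        rw [hw]; exact hz'
      · rintro _ ⟨w, hw, rfl⟩
        exact hmem w hw
    rw [this]
    exact hfg'.map _
  · intro f
    let ρ' : LinearMap.ker ℓ' →ₗ[R] (Z ⊓ LinearMap.ker ℓ : Submodule R P) :=
      ((Z.subtype ∘ₗ ρ).domRestrict (LinearMap.ker ℓ')).codRestrict _ (fun w => hmem w.1 w.2)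
    obtain ⟨F, hF⟩ := hext' (f ∘ₗ ρ')
    have hker : LinearMap.ker ρ ≤ LinearMap.ker F := by
      intro w hw
      have hw' : w ∈ LinearMap.ker ℓ' := by
        change ℓ (ρ w).1 = 0
        rw [LinearMap.mem_ker.1 hw]; simp
      have := hF ⟨w, hw'⟩
      rw [LinearMap.mem_ker, this]
      have h0 : ρ' ⟨w, hw'⟩ = 0 := by
        apply Subtype.ext
        change (ρ w).1 = 0
        rw [LinearMap.mem_ker.1 hw]; rfl
      rw [LinearMap.comp_apply, h0, map_zero]
    let f' : Z →ₗ[R] R := ((LinearMap.ker ρ).liftQ F hker) ∘ₗ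
      (ρ.quotKerEquivOfSurjective hρ).symm.toLinearMap
    have hf' : ∀ w, f' (ρ w) = F w := by
      intro w
      have : (ρ.quotKerEquivOfSurjective hρ).symm (ρ w) = Submodule.Quotient.mk w := by
        rw [LinearEquiv.symm_apply_eq]; rfl
      change (LinearMap.ker ρ).liftQ F hker ((ρ.quotKerEquivOfSurjective hρ).symm (ρ w)) = F w
      rw [this]; rfl
    obtain ⟨g, hg⟩ := hext f'
    refine ⟨g, fun z => ?_⟩
    obtain ⟨w, hw⟩ := hρ ⟨z.1, z.2.1⟩
    have hw' : w ∈ LinearMap.ker ℓ' := by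
      change ℓ (ρ w).1 = 0
      rw [hw]; exact z.2.2
    have e1 : g z.1 = f' ⟨z.1, z.2.1⟩ := hg ⟨z.1, z.2.1⟩
    rw [e1, ← hw, hf', hF ⟨w, hw'⟩, LinearMap.comp_apply]
    congr 1
    apply Subtype.ext
    change (ρ w).1 = z.1
    rw [hw]

theorem Gd.ker (h1 : ∀ (n : ℕ) (ℓ : (Fin n → R) →ₗ[R] R), Gd (LinearMap.ker ℓ))
    {n k : ℕ} (π : (Fin n → R) →ₗ[R] (Fin k → R)) : Gd (LinearMap.ker π) := by
  classical
  have key : ∀ s : Finset (Fin k),
      Gd (s.inf fun i => LinearMap.ker ((LinearMap.proj i : (Fin k → R) →ₗ[R] R) ∘ₗ π)) := by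
    intro s
    induction s using Finset.induction_on with
    | empty =>
      rw [Finset.inf_empty]
      refine ⟨Module.Finite.fg_top, fun f => ⟨f ∘ₗ (LinearMap.id.codRestrict ⊤ fun _ => trivial),
        fun z => ?_⟩⟩
      rw [LinearMap.comp_apply]
      congr 1
    | insert j s hj ih =>
      rw [Finset.inf_insert, inf_comm]
      exact ih.inf h1 _
  have : LinearMap.ker π = (Finset.univ : Finset (Fin k)).inf fun i =>
      LinearMap.ker ((LinearMap.proj i : (Fin k → R) →ₗ[R] R) ∘ₗ π) := by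
    ext x
    rw [Submodule.mem_finsetInf]
    simp only [Finset.mem_univ, true_implies, LinearMap.mem_ker, LinearMap.comp_apply,
      LinearMap.proj_apply]
    exact funext_iff
  rw [this]
  exact key _

/-- a module with a projective syzygy that has the extension property is projective -/
theorem proj_of_ker {n : ℕ} {X : Type u} [AddCommGroup X] [Module R X]
    (π : (Fin n → R) →ₗ[R] X) (hπ : Function.Surjective π) (hgd : Gd (LinearMap.ker π))
    (hp : Module.Projective R (LinearMap.ker π)) : Module.Projective R X := by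
  classical
  obtain ⟨hfg, hext⟩ := hgd
  haveI : Module.Finite R (LinearMap.ker π) := Module.Finite.iff_fg.2 hfg
  obtain ⟨m, p, hpsurj⟩ := Module.Finite.exists_fin' R (LinearMap.ker π)
  obtain ⟨i, hi⟩ := Module.projective_lifting_property p LinearMap.id hpsurj
  choose g hg using fun j : Fin m => hext ((LinearMap.proj j : (Fin m → R) →ₗ[R] R) ∘ₗ i)
  let E : (Fin n → R) →ₗ[R] (Fin m → R) := LinearMap.pi g
  have hE : ∀ z : LinearMap.ker π, E z = i z := by
    intro z
    ext j
    exact hg j z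
  -- the retraction onto the kernel
  let ret : (Fin n → R) →ₗ[R] LinearMap.ker π := p ∘ₗ E
  have hret : ∀ z : LinearMap.ker π, ret z = z := by
    intro z
    change p (E z) = z
    rw [hE]
    exact LinearMap.congr_fun hi z
  let S : (Fin n → R) →ₗ[R] (Fin n → R) := LinearMap.id - (LinearMap.ker π).subtype ∘ₗ ret
  have hS : LinearMap.ker π ≤ LinearMap.ker S := by
    intro z hz
    change z - (ret z).1 = 0
    have := hret ⟨z, hz⟩
    have h2 : ret z = ⟨z, hz⟩ := this
    rw [h2, sub_self]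
  let σ : X →ₗ[R] (Fin n → R) := ((LinearMap.ker π).liftQ S hS) ∘ₗ
    (π.quotKerEquivOfSurjective hπ).symm.toLinearMap
  refine Module.Projective.of_split σ π ?_
  ext x
  obtain ⟨y, rfl⟩ := hπ x
  have : (π.quotKerEquivOfSurjective hπ).symm (π y) = Submodule.Quotient.mk y := by
    rw [LinearEquiv.symm_apply_eq]; rfl
  change π ((LinearMap.ker π).liftQ S hS ((π.quotKerEquivOfSurjective hπ).symm (π y))) = π y
  rw [this]
  change π (y - (ret y).1) = π y
  rw [map_sub, LinearMap.mem_ker.1 (ret y).2, sub_zero]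

end good

end Pool.Agent.H44SH
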