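import Mathlib

/- The file is a copy of `Pool/Graph/R_seed8/Helper282/Dist.lean` of the library (places of a left
and right distributive domain inside its division ring of fractions). -/

set_option autoImplicit false

namespace Pool.Agent.H44SH

variable {K : Type*} [DivisionRing K]

/-- right partitions -/
def RP (A : Subring K) : Prop :=
  ∀ x : K, x ≠ 0 → ∃ r ∈ A, x * r ∈ A ∧ x⁻¹ * (1 - r) ∈ A
/-- left partitions -/
def LP (A : Subring K) : Prop :=
  ∀ x : K, x ≠ 0 → ∃ l ∈ A, l * x ∈ A ∧ (1 - l) * x⁻¹ ∈ A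

/-- maximal ideals of `A` (two-sided ideals with division quotient), as subsets of `K` -/
structure Pl (A : Subring K) (M : Set K) : Prop where
  sub : ∀ x ∈ M, x ∈ A
  zero : (0 : K) ∈ M
  add : ∀ x ∈ M, ∀ y ∈ M, x + y ∈ M
  lmul : ∀ a ∈ A, ∀ x ∈ M, a * x ∈ M
  rmul : ∀ a ∈ A, ∀ x ∈ M, x * a ∈ M
  one : (1 : K) ∉ M
  inv : ∀ a ∈ A, a ∉ M → ∃ b ∈ A, 1 - b * a ∈ M ∧ 1 - a * b ∈ M

namespace Pl
variable {A : Subring K} {M : Set K}

theorem neg (h : Pl A M) {x : K} (hx : x ∈ M) : -x ∈ M := by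
  have := h.lmul (-1) (A.neg_mem A.one_mem) x hx
  rwa [neg_one_mul] at this

theorem sub' (h : Pl A M) {x y : K} (hx : x ∈ M) (hy : y ∈ M) : x - y ∈ M := by
  rw [sub_eq_add_neg]; exact h.add _ hx _ (h.neg hy)

theorem add_cancel (h : Pl A M) {x y : K} (hx : x + y ∈ M) (hy : y ∈ M) : x ∈ M := by
  have := h.sub' hx hy
  rwa [add_sub_cancel_right] at this

theorem prime (h : Pl A M) {a b : K} (ha : a ∈ A) (hb : b ∈ A) (ha' : a ∉ M) (hb' : b ∉ M) :
    a * b ∉ M := by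
  intro hab
  obtain ⟨c, hc, h1, _⟩ := h.inv a ha ha'
  apply hb'
  have h2 : (1 - c * a) * b ∈ M := h.rmul b hb _ h1
  have h3 : c * (a * b) ∈ M := h.lmul c hc _ hab
  have := h.add _ h2 _ h3
  have e : (1 - c * a) * b + c * (a * b) = b := by noncomm_ring
  rwa [e] at this

theorem sum_mem (h : Pl A M) {ι : Type*} (s : Finset ι) (f : ι → K) (hf : ∀ i ∈ s, f i ∈ M) :
    ∑ i ∈ s, f i ∈ M := by
  classical
  induction s using Finset.induction_on with
  | empty => simpa using h.zero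
  | insert a s ha ih =>
    rw [Finset.sum_insert ha]
    exact h.add _ (hf a (Finset.mem_insert_self _ _)) _
      (ih fun i hi => hf i (Finset.mem_insert_of_mem hi))

theorem ne_zero (h : Pl A M) {x : K} (hx : x ∉ M) : x ≠ 0 := by
  rintro rfl; exact hx h.zero

theorem one_sub (h : Pl A M) {x : K} (hx : x ∈ M) : 1 - x ∉ M := by
  intro h1
  apply h.one
  have := h.add _ h1 _ hx
  rwa [sub_add_cancel] at this

/-- maximality -/
theorem eq_of_le (h : Pl A M) {M' : Set K} (h' : Pl A M') (hle : M' ⊆ M) : M' = M := by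
  apply Set.Subset.antisymm hle
  intro x hx
  by_contra hxM
  obtain ⟨b, hb, h1, _⟩ := h'.inv x (h.sub x hx) hxM
  exact h.one_sub (h.lmul b hb x hx) (hle h1)

end Pl

/-- the local ring at `M` -/
def V (A : Subring K) (M : Set K) : Set K := {x | ∃ d ∈ A, d ∉ M ∧ d * x ∈ A}
/-- its maximal ideal -/
def J (A : Subring K) (M : Set K) : Set K := {x | ∃ d ∈ A, d ∉ M ∧ d * x ∈ M}

section loc
variable {A : Subring K} {M : Set K}

theorem A_V (h : Pl A M) {x : K} (hx : x ∈ A) : x ∈ V A M :=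
  ⟨1, A.one_mem, h.one, by rwa [one_mul]⟩

theorem M_J (h : Pl A M) {x : K} (hx : x ∈ M) : x ∈ J A M :=
  ⟨1, A.one_mem, h.one, by rwa [one_mul]⟩

theorem J_V (h : Pl A M) {x : K} (hx : x ∈ J A M) : x ∈ V A M := by
  obtain ⟨d, hd, hdM, hx⟩ := hx
  exact ⟨d, hd, hdM, h.sub _ hx⟩

theorem J_A (h : Pl A M) {x : K} (hx : x ∈ J A M) (hxA : x ∈ A) : x ∈ M := by
  obtain ⟨d, hd, hdM, hx⟩ := hx
  by_contra hxM
  exact h.prime hd hxA hdM hxM hx

theorem one_J (h : Pl A M) : (1 : K) ∉ J A M := fun h1 => h.one (J_A h h1 A.one_mem)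

/-- right denominators give left denominators -/
theorem V_of_right (h : Pl A M) (hL : LP A) {x a : K} (ha : a ∈ A) (haM : a ∉ M)
    (hxa : x * a ∈ A) : x ∈ V A M := by
  by_cases hx0 : x = 0
  · subst hx0; exact A_V h A.zero_mem
  obtain ⟨l, hl, hlx, hb⟩ := hL x hx0
  by_cases hlM : l ∈ M
  · have h1l : 1 - l ∉ M := h.one_sub hlM
    set b := (1 - l) * x⁻¹ with hbdef
    have hbx : b * x = 1 - l := by rw [hbdef, mul_assoc, inv_mul_cancel₀ hx0, mul_one]
    by_cases hbM : b ∈ M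
    · exfalso
      have h2 : b * (x * a) ∈ M := h.rmul _ hxa _ hbM
      rw [← mul_assoc, hbx] at h2
      exact h.prime (A.sub_mem A.one_mem hl) ha h1l haM h2
    · exact ⟨b, hb, hbM, by rw [hbx]; exact A.sub_mem A.one_mem hl⟩
  · exact ⟨l, hl, hlM, hlx⟩

/-- left denominators give right denominators -/
theorem right_of_V (h : Pl A M) (hR : RP A) {x : K} (hx : x ∈ V A M) :
    ∃ a ∈ A, a ∉ M ∧ x * a ∈ A := by
  obtain ⟨d, hd, hdM, hdx⟩ := hx
  by_cases hx0 : x = 0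
  · subst hx0; exact ⟨1, A.one_mem, h.one, by simp [A.zero_mem]⟩
  obtain ⟨l, hl, hlx, hb⟩ := hR x hx0
  by_cases hlM : l ∈ M
  · have h1l : 1 - l ∉ M := h.one_sub hlM
    set b := x⁻¹ * (1 - l) with hbdef
    have hbx : x * b = 1 - l := by rw [hbdef, ← mul_assoc, mul_inv_cancel₀ hx0, one_mul]
    by_cases hbM : b ∈ M
    · exfalso
      have h2 : (d * x) * b ∈ M := h.lmul _ hdx _ hbM
      rw [mul_assoc, hbx] at h2
      exact h.prime hd (A.sub_mem A.one_mem hl) hdM h1l h2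
    · exact ⟨b, hb, hbM, by rw [hbx]; exact A.sub_mem A.one_mem hl⟩
  · exact ⟨l, hl, hlM, hlx⟩

/-- left Ore condition for `A ∖ M` -/
theorem ore_left (h : Pl A M) (hL : LP A) {c b : K} (hc : c ∈ A) (hb : b ∈ A) (hbM : b ∉ M) :
    ∃ a ∈ A, a ∉ M ∧ ∃ c' ∈ A, a * c = c' * b := by
  have hb0 : b ≠ 0 := h.ne_zero hbM
  have : c * b⁻¹ ∈ V A M := by
    apply V_of_right h hL hb hbM
    rwa [mul_assoc, inv_mul_cancel₀ hb0, mul_one]
  obtain ⟨a, ha, haM, hx⟩ := this
  exact ⟨a, ha, haM, _, hx, by rw [mul_assoc, mul_assoc, inv_mul_cancel₀ hb0, mul_one]⟩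

theorem ore_right (h : Pl A M) (hR : RP A) {c b : K} (hc : c ∈ A) (hb : b ∈ A) (hbM : b ∉ M) :
    ∃ a ∈ A, a ∉ M ∧ ∃ c' ∈ A, c * a = b * c' := by
  have hb0 : b ≠ 0 := h.ne_zero hbM
  have : b⁻¹ * c ∈ V A M := ⟨b, hb, hbM, by rwa [← mul_assoc, mul_inv_cancel₀ hb0, one_mul]⟩
  obtain ⟨a, ha, haM, hx⟩ := right_of_V h hR this
  exact ⟨a, ha, haM, _, hx, by rw [← mul_assoc, ← mul_assoc, mul_inv_cancel₀ hb0, one_mul]⟩

theorem inv_V (h : Pl A M) {b : K} (hb : b ∈ A) (hbM : b ∉ M) : b⁻¹ ∈ V A M :=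
  ⟨b, hb, hbM, by rw [mul_inv_cancel₀ (h.ne_zero hbM)]; exact A.one_mem⟩

theorem V_mul (h : Pl A M) (hL : LP A) {x y : K} (hx : x ∈ V A M) (hy : y ∈ V A M) :
    x * y ∈ V A M := by
  obtain ⟨a, ha, haM, hax⟩ := hx
  obtain ⟨b, hb, hbM, hby⟩ := hy
  -- `b' * (a * x) = c' * b`
  obtain ⟨b', hb', hbM', c', hc', e⟩ := ore_left h hL hax hb hbM
  refine ⟨b' * a, A.mul_mem hb' ha, h.prime hb' ha hbM' haM, ?_⟩
  have : b' * a * (x * y) = c' * (b * y) := by
    rw [← mul_assoc c', ← e]; noncomm_ring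
  rw [this]; exact A.mul_mem hc' hby

theorem V_common (h : Pl A M) (hL : LP A) {ι : Type*} (s : Finset ι) (x : ι → K)
    (hx : ∀ i ∈ s, x i ∈ V A M) : ∃ d ∈ A, d ∉ M ∧ ∀ i ∈ s, d * x i ∈ A := by
  classical
  induction s using Finset.induction_on with
  | empty => exact ⟨1, A.one_mem, h.one, by simp⟩
  | insert j s hj ih =>
    obtain ⟨d, hd, hdM, hdx⟩ := ih fun i hi => hx i (Finset.mem_insert_of_mem hi)
    obtain ⟨e, he, heM, hex⟩ := hx j (Finset.mem_insert_self _ _)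
    obtain ⟨a, ha, haM, c', hc', e1⟩ := ore_left h hL hd he heM
    refine ⟨a * d, A.mul_mem ha hd, h.prime ha hd haM hdM, ?_⟩
    intro i hi
    rcases Finset.mem_insert.1 hi with rfl | hi
    · rw [e1, mul_assoc]; exact A.mul_mem hc' hex
    · rw [mul_assoc]; exact A.mul_mem ha (hdx i hi)

theorem V_add (h : Pl A M) (hL : LP A) {x y : K} (hx : x ∈ V A M) (hy : y ∈ V A M) :
    x + y ∈ V A M := by
  obtain ⟨a, ha, haM, hax⟩ := hx
  obtain ⟨b, hb, hbM, hby⟩ := hy
  obtain ⟨b', hb', hbM', c', hc', e⟩ := ore_left h hL ha hb hbM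
  refine ⟨b' * a, A.mul_mem hb' ha, h.prime hb' ha hbM' haM, ?_⟩
  rw [mul_add, mul_assoc, e, mul_assoc]
  exact A.add_mem (A.mul_mem hb' hax) (A.mul_mem hc' hby)

theorem V_neg {x : K} (hx : x ∈ V A M) : -x ∈ V A M := by
  obtain ⟨a, ha, haM, hax⟩ := hx
  exact ⟨a, ha, haM, by rw [mul_neg]; exact A.neg_mem hax⟩

theorem V_sum (h : Pl A M) (hL : LP A) {ι : Type*} (s : Finset ι) (x : ι → K)
    (hx : ∀ i ∈ s, x i ∈ V A M) : ∑ i ∈ s, x i ∈ V A M := by
  classical
  induction s using Finset.induction_on with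
  | empty => simpa using A_V h A.zero_mem
  | insert j s hj ih =>
    rw [Finset.sum_insert hj]
    exact V_add h hL (hx j (Finset.mem_insert_self _ _))
      (ih fun i hi => hx i (Finset.mem_insert_of_mem hi))

theorem J_add (h : Pl A M) (hL : LP A) {x y : K} (hx : x ∈ J A M) (hy : y ∈ J A M) :
    x + y ∈ J A M := by
  obtain ⟨a, ha, haM, hax⟩ := hx
  obtain ⟨b, hb, hbM, hby⟩ := hy
  obtain ⟨b', hb', hbM', c', hc', e⟩ := ore_left h hL ha hb hbM
  refine ⟨b' * a, A.mul_mem hb' ha, h.prime hb' ha hbM' haM, ?_⟩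
  rw [mul_add, mul_assoc, e, mul_assoc]
  exact h.add _ (h.lmul _ hb' _ hax) _ (h.lmul _ hc' _ hby)

theorem J_neg (h : Pl A M) {x : K} (hx : x ∈ J A M) : -x ∈ J A M := by
  obtain ⟨a, ha, haM, hax⟩ := hx
  exact ⟨a, ha, haM, by rw [mul_neg]; exact h.neg hax⟩

theorem J_sub (h : Pl A M) (hL : LP A) {x y : K} (hx : x ∈ J A M) (hy : y ∈ J A M) :
    x - y ∈ J A M := by
  rw [sub_eq_add_neg]; exact J_add h hL hx (J_neg h hy)

theorem J_sum (h : Pl A M) (hL : LP A) {ι : Type*} (s : Finset ι) (x : ι → K)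
    (hx : ∀ i ∈ s, x i ∈ J A M) : ∑ i ∈ s, x i ∈ J A M := by
  classical
  induction s using Finset.induction_on with
  | empty => simpa using M_J h h.zero
  | insert j s hj ih =>
    rw [Finset.sum_insert hj]
    exact J_add h hL (hx j (Finset.mem_insert_self _ _))
      (ih fun i hi => hx i (Finset.mem_insert_of_mem hi))

theorem VJ (h : Pl A M) (hL : LP A) {x y : K} (hx : x ∈ V A M) (hy : y ∈ J A M) :
    x * y ∈ J A M := by
  obtain ⟨a, ha, haM, hax⟩ := hx
  obtain ⟨b, hb, hbM, hby⟩ := hy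
  obtain ⟨b', hb', hbM', c', hc', e⟩ := ore_left h hL hax hb hbM
  refine ⟨b' * a, A.mul_mem hb' ha, h.prime hb' ha hbM' haM, ?_⟩
  have : b' * a * (x * y) = c' * (b * y) := by
    rw [← mul_assoc c', ← e]; noncomm_ring
  rw [this]; exact h.lmul _ hc' _ hby

theorem JV (h : Pl A M) (hL : LP A) {x y : K} (hx : x ∈ J A M) (hy : y ∈ V A M) :
    x * y ∈ J A M := by
  obtain ⟨a, ha, haM, hax⟩ := hx
  obtain ⟨b, hb, hbM, hby⟩ := hy
  -- `m = a x ∈ M`, `b' m = c' b`, so `c' ∈ M`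
  obtain ⟨b', hb', hbM', c', hc', e⟩ := ore_left h hL (h.sub _ hax) hb hbM
  have hcM : c' ∈ M := by
    by_contra hcM
    exact h.prime hc' hb hcM hbM (by rw [← e]; exact h.lmul _ hb' _ hax)
  refine ⟨b' * a, A.mul_mem hb' ha, h.prime hb' ha hbM' haM, ?_⟩
  have : b' * a * (x * y) = c' * (b * y) := by
    rw [← mul_assoc c', ← e]; noncomm_ring
  rw [this]; exact h.rmul _ hby _ hcM

theorem inv_of_not_J (h : Pl A M) {x : K} (hx : x ∈ V A M) (hxJ : x ∉ J A M) :
    x⁻¹ ∈ V A M := by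
  obtain ⟨a, ha, haM, hax⟩ := hx
  have hx0 : x ≠ 0 := by
    rintro rfl; exact hxJ (M_J h h.zero)
  refine ⟨a * x, hax, fun hm => hxJ ⟨a, ha, haM, hm⟩, ?_⟩
  rw [mul_assoc, mul_inv_cancel₀ hx0, mul_one]; exact ha

theorem J_prime (h : Pl A M) (hL : LP A) {x y : K} (hx : x ∈ V A M)
    (hxy : x * y ∈ J A M) : x ∈ J A M ∨ y ∈ J A M := by
  by_contra hcon
  push Not at hcon
  have hx0 : x ≠ 0 := by
    rintro rfl; exact hcon.1 (M_J h h.zero)
  have := VJ h hL (inv_of_not_J h hx hcon.1) hxy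
  rw [← mul_assoc, inv_mul_cancel₀ hx0, one_mul] at this
  exact hcon.2 this

/-- residue classes are represented in `A` -/
theorem V_repr (h : Pl A M) (hL : LP A) {x : K} (hx : x ∈ V A M) :
    ∃ c ∈ A, x - c ∈ J A M := by
  have hx' := hx
  obtain ⟨a, ha, haM, hax⟩ := hx
  obtain ⟨b, hb, h1, _⟩ := h.inv a ha haM
  refine ⟨b * (a * x), A.mul_mem hb hax, ?_⟩
  have : x - b * (a * x) = (1 - b * a) * x := by noncomm_ring
  rw [this]
  exact JV h hL (M_J h h1) hx'

theorem V_total (h : Pl A M) (hL : LP A) (x : K) (hx : x ≠ 0) : x ∈ V A M ∨ x⁻¹ ∈ V A M := by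
  obtain ⟨l, hl, hlx, hb⟩ := hL x hx
  by_cases hlM : l ∈ M
  · exact Or.inr ⟨1 - l, A.sub_mem A.one_mem hl, h.one_sub hlM, hb⟩
  · exact Or.inl ⟨l, hl, hlM, hlx⟩

end loc

/-- Maximal left ideals are places; local-global principle for left ideals. -/
theorem lg {A : Subring K} (hL : LP A) (Y : Set K) (h0 : (0 : K) ∈ Y)
    (hadd : ∀ x ∈ Y, ∀ y ∈ Y, x + y ∈ Y) (hmul : ∀ a ∈ A, ∀ x ∈ Y, a * x ∈ Y)
    (hloc : ∀ M, Pl A M → ∃ a ∈ A, a ∉ M ∧ a ∈ Y) : (1 : K) ∈ Y := by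
  by_contra h1
  -- the left ideal `Y ∩ A`
  let I : Ideal A :=
    { carrier := {x | (x : K) ∈ Y}
      add_mem' := fun {x y} hx hy => by
        simp only [Set.mem_ofPred_eq, Subring.coe_add] at *
        exact hadd _ hx _ hy
      zero_mem' := by simpa using h0
      smul_mem' := fun c x hx => by
        simp only [Set.mem_ofPred_eq, smul_eq_mul, Subring.coe_mul] at *
        exact hmul _ c.2 _ hx }
  have hI : I ≠ ⊤ := by
    intro h
    apply h1
    have : (1 : A) ∈ I := by rw [h]; trivial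
    simpa [I] using this
  obtain ⟨m, hm, hIm⟩ := Ideal.exists_le_maximal I hI
  -- two-sided
  have h1m : (1 : A) ∉ m := (Ideal.ne_top_iff_one m).1 hm.ne_top
  have key : ∀ x : A, x ∉ m → ∃ c : A, 1 - c * x ∈ m := by
    intro x hx
    have hlt : m < m ⊔ Ideal.span {x} := by
      refine lt_of_le_of_ne le_sup_left ?_
      intro h
      apply hx
      rw [h]
      exact (le_sup_right : Ideal.span {x} ≤ _) (Ideal.subset_span rfl)
    have htop := hm.out.2 _ hlt
    have h1' : (1 : A) ∈ m ⊔ Ideal.span {x} := by rw [htop]; trivial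
    obtain ⟨y, hy, z, hz, hyz⟩ := Submodule.mem_sup.1 h1'
    obtain ⟨c, rfl⟩ := Submodule.mem_span_singleton.1 hz
    refine ⟨c, ?_⟩
    rw [← hyz]
    simpa using hy
  have two : ∀ x ∈ m, ∀ r : A, x * r ∈ m := by
    intro x0 hx0 r
    by_contra hxr0
    obtain ⟨c, hc⟩ := key _ hxr0
    -- replace x0 by c x0
    set x : A := c * x0 with hxdef
    have hx : x ∈ m := m.mul_mem_left c hx0
    have hxr : 1 - x * r ∈ m := by rw [hxdef, mul_assoc]; exact hc
    set b : A := 1 - r * x with hbdef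
    have hb1 : 1 - b ∈ m := by
      have : 1 - b = r * x := by rw [hbdef]; abel
      rw [this]; exact m.mul_mem_left r hx
    have hbr : b * r ∈ m := by
      have : b * r = r * (1 - x * r) := by rw [hbdef]; noncomm_ring
      rw [this]; exact m.mul_mem_left r hxr
    have hb0 : (b : K) ≠ 0 := by
      intro h
      apply h1m
      have : b = 0 := by ext; simpa using h
      rw [this] at hb1
      simpa using hb1
    have hx0' : (x : K) ≠ 0 := by
      intro h
      apply h1m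
      have : x = 0 := by ext; simpa using h
      rw [this] at hxr
      simpa using hxr
    obtain ⟨l, hl, h2, h3⟩ := hL ((x : K) * (b : K)⁻¹) (mul_ne_zero hx0' (inv_ne_zero hb0))
    have h4 : l * (x : K) = (l * ((x : K) * (b : K)⁻¹)) * b := by
      rw [mul_assoc, mul_assoc, inv_mul_cancel₀ hb0, mul_one]
    have h5 : (1 - l) * (b : K) = ((1 - l) * ((x : K) * (b : K)⁻¹)⁻¹) * x := by
      rw [mul_inv_rev, inv_inv, mul_assoc, mul_assoc, inv_mul_cancel₀ hx0', mul_one]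
    let l' : A := ⟨l, hl⟩
    let u : A := ⟨_, h2⟩
    let v : A := ⟨_, h3⟩
    have h4' : l' * x = u * b := Subtype.ext h4
    have h5' : (1 - l') * b = v * x := Subtype.ext h5
    have ht : 1 - l' ∈ m := by
      have e : 1 - l' = (1 - l') * b + (1 - l') * (1 - b) := by noncomm_ring
      rw [e, h5']
      exact m.add_mem (m.mul_mem_left v hx) (m.mul_mem_left _ hb1)
    have hs : l' ∈ m := by
      have e : l' = u * (b * r) + l' * (1 - x * r) := by
        rw [← mul_assoc u, ← h4']; noncomm_ring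
      rw [e]
      exact m.add_mem (m.mul_mem_left u hbr) (m.mul_mem_left _ hxr)
    apply h1m
    have := m.add_mem ht hs
    simpa using this
  -- the place
  let M : Set K := {x | ∃ h : x ∈ A, (⟨x, h⟩ : A) ∈ m}
  have hM : Pl A M :=
    { sub := fun x hx => hx.1
      zero := ⟨A.zero_mem, m.zero_mem⟩
      add := fun x hx y hy => ⟨A.add_mem hx.1 hy.1, m.add_mem hx.2 hy.2⟩
      lmul := fun a ha x hx => ⟨A.mul_mem ha hx.1, m.mul_mem_left ⟨a, ha⟩ hx.2⟩
      rmul := fun a ha x hx => ⟨A.mul_mem hx.1 ha, two _ hx.2 ⟨a, ha⟩⟩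
      one := fun h => h1m h.2
      inv := by
        intro a ha haM
        have ha' : (⟨a, ha⟩ : A) ∉ m := fun h => haM ⟨ha, h⟩
        obtain ⟨c, hc⟩ := key _ ha'
        have hcm : c ∉ m := by
          intro h
          apply h1m
          have h2 := two _ h ⟨a, ha⟩
          have := m.add_mem hc h2
          simpa using this
        obtain ⟨d, hd⟩ := key _ hcm
        have had : 1 - (⟨a, ha⟩ : A) * c ∈ m := by
          -- a ≡ d mod m
          have e : 1 - (⟨a, ha⟩ : A) * c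
              = (1 - d * c) + (d * (1 - c * ⟨a, ha⟩) * c)
                - ((1 - d * c) * (⟨a, ha⟩ : A) * c) := by noncomm_ring
          rw [e]
          refine m.sub_mem (m.add_mem hd (two _ (m.mul_mem_left d hc) c)) ?_
          exact two _ (two _ hd _) _
        refine ⟨c, c.2, ⟨A.sub_mem A.one_mem (A.mul_mem c.2 ha), hc⟩,
          ⟨A.sub_mem A.one_mem (A.mul_mem ha c.2), had⟩⟩ }
  obtain ⟨a, ha, haM, haY⟩ := hloc M hM
  exact haM ⟨ha, hIm haY⟩

end Pool.Agent.H44SH
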