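import Pool.Agent.Helper44.SH.Base

set_option autoImplicit false

namespace Pool.Agent.H44SH

section K
variable {K : Type*} [DivisionRing K] {A : Subring K} {M : Set K} {ι : Type*}

/-- local-global principle on the right -/
theorem lgR (hR : RP A) (Y : Set K) (h0 : (0 : K) ∈ Y)
    (hadd : ∀ x ∈ Y, ∀ y ∈ Y, x + y ∈ Y) (hmul : ∀ a ∈ A, ∀ x ∈ Y, x * a ∈ Y)
    (hloc : ∀ M, Pl A M → ∃ a ∈ A, a ∉ M ∧ a ∈ Y) : (1 : K) ∈ Y := by
  have := lg (LP_op hR) (MulOpposite.unop ⁻¹' Y) h0
    (fun x hx y hy => hadd _ hx _ hy) (fun a ha x hx => hmul _ ha _ hx) (fun M hM => by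
      obtain ⟨a, ha, haM, haY⟩ := hloc (MulOpposite.op ⁻¹' M) (Pl_unop hM)
      exact ⟨MulOpposite.op a, ha, haM, haY⟩)
  exact this

theorem V_common_right (h : Pl A M) (hL : LP A) (hR : RP A) (s : Finset ι) (x : ι → K)
    (hx : ∀ i ∈ s, x i ∈ V A M) : ∃ d ∈ A, d ∉ M ∧ ∀ i ∈ s, x i * d ∈ A := by
  classical
  induction s using Finset.induction_on with
  | empty => exact ⟨1, A.one_mem, h.one, by simp⟩
  | insert j s hj ih =>
    obtain ⟨d, hd, hdM, hdx⟩ := ih fun i hi => hx i (Finset.mem_insert_of_mem hi)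
    obtain ⟨b, hb, hbM, hbx⟩ := right_of_V h hR
      (V_mul h hL (hx j (Finset.mem_insert_self _ _)) (A_V h hd))
    refine ⟨d * b, A.mul_mem hd hb, h.prime hd hb hdM hbM, ?_⟩
    intro i hi
    rcases Finset.mem_insert.1 hi with rfl | hi
    · rw [← mul_assoc]; exact hbx
    · rw [← mul_assoc]; exact A.mul_mem (hdx i hi) hb

/-- pivots -/
theorem exists_pivot [Fintype ι] (h : Pl A M) (hL : LP A) (hR : RP A) (a : ι → K)
    (hne : ∃ i, a i ≠ 0) : ∃ i, a i ≠ 0 ∧ ∀ j, a j * (a i)⁻¹ ∈ V A M := by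
  classical
  let κ := {i // a i ≠ 0}
  haveI : Nonempty κ := ⟨⟨hne.choose, hne.choose_spec⟩⟩
  obtain ⟨r, h1, h2, h3⟩ := part hR (fun i : κ => a i.1) (fun i => i.2) Finset.univ
    Finset.univ_nonempty
  obtain ⟨i, hi⟩ : ∃ i, r i ∉ M := by
    by_contra hcon
    push Not at hcon
    exact h.one (by rw [← h2]; exact h.sum_mem _ _ fun i _ => hcon i)
  refine ⟨i.1, i.2, fun j => ?_⟩
  by_cases hj : a j = 0
  · rw [hj, zero_mul]; exact A_V h A.zero_mem
  · exact V_of_right h hL (h1 i (Finset.mem_univ _)) hi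
      (h3 i (Finset.mem_univ _) ⟨j, hj⟩ (Finset.mem_univ _))

/-- the extension property for one equation, inside the division ring -/
theorem ext_K [Fintype ι] (hL : LP A) (hR : RP A) (a h : ι → K)
    (hh : ∀ x : ι → K, (∀ i, x i ∈ A) → ∑ i, x i * a i = 0 → ∑ i, x i * h i ∈ A) :
    ∃ d : K, ∀ j, h j + a j * d ∈ A := by
  classical
  by_cases hne : ∃ i, a i ≠ 0
  swap
  · push Not at hne
    refine ⟨0, fun j => ?_⟩
    have := hh (Pi.single j 1) (fun i => by
      by_cases hij : i = j
      · subst hij; rw [Pi.single_eq_same]; exact A.one_mem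
      · rw [Pi.single_eq_of_ne hij]; exact A.zero_mem) (by simp [hne])
    rw [Finset.sum_eq_single j (fun b _ hb => by rw [Pi.single_eq_of_ne hb, zero_mul])
      (fun hj => absurd (Finset.mem_univ j) hj), Pi.single_eq_same, one_mul] at this
    rw [mul_zero, add_zero]; exact this
  have key : (1 : K) ∈ {ρ : K | ∃ c : ι → K, ∑ i, c i = ρ ∧
      (∀ i, a i = 0 → c i = 0) ∧ ∀ i j, (h j - a j * (a i)⁻¹ * h i) * c i ∈ A} := by
    refine lgR hR _ ⟨0, by simp, fun _ _ => rfl, fun i j => by simp [A.zero_mem]⟩ ?_ ?_ ?_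
    · rintro x ⟨c, hc, h0, h1⟩ y ⟨c', hc', h0', h1'⟩
      refine ⟨c + c', by simp [Finset.sum_add_distrib, hc, hc'], fun i hi => by
        simp [h0 i hi, h0' i hi], fun i j => ?_⟩
      rw [Pi.add_apply, mul_add]
      exact A.add_mem (h1 i j) (h1' i j)
    · rintro b hb x ⟨c, hc, h0, h1⟩
      refine ⟨fun i => c i * b, by rw [← Finset.sum_mul, hc], fun i hi => by
        change c i * b = 0; rw [h0 i hi, zero_mul], fun i j => ?_⟩
      change (h j - a j * (a i)⁻¹ * h i) * (c i * b) ∈ A
      rw [← mul_assoc]; exact A.mul_mem (h1 i j) hb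
    · intro M hM
      obtain ⟨i, hi, hpiv⟩ := exists_pivot hM hL hR a hne
      have hV : ∀ j, h j - a j * (a i)⁻¹ * h i ∈ V A M := by
        intro j
        obtain ⟨δ, hδ, hδM, hx⟩ := hpiv j
        refine ⟨δ, hδ, hδM, ?_⟩
        have := hh (Pi.single j δ - Pi.single i (δ * (a j * (a i)⁻¹))) (fun k => by
          rw [Pi.sub_apply]
          refine A.sub_mem ?_ ?_
          · by_cases hk : k = j
            · subst hk; rw [Pi.single_eq_same]; exact hδ
            · rw [Pi.single_eq_of_ne hk]; exact A.zero_mem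
          · by_cases hk : k = i
            · subst hk; rw [Pi.single_eq_same]; exact hx
            · rw [Pi.single_eq_of_ne hk]; exact A.zero_mem) (by
          simp only [Pi.sub_apply, sub_mul, Finset.sum_sub_distrib]
          rw [Finset.sum_eq_single j (fun b _ hb => by rw [Pi.single_eq_of_ne hb, zero_mul])
            (fun hj => absurd (Finset.mem_univ j) hj), Pi.single_eq_same,
            Finset.sum_eq_single i (fun b _ hb => by rw [Pi.single_eq_of_ne hb, zero_mul])
            (fun hj => absurd (Finset.mem_univ i) hj), Pi.single_eq_same]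
          rw [mul_assoc, mul_assoc, inv_mul_cancel₀ hi, mul_one, sub_self])
        simp only [Pi.sub_apply, sub_mul, Finset.sum_sub_distrib] at this
        rw [Finset.sum_eq_single j (fun b _ hb => by rw [Pi.single_eq_of_ne hb, zero_mul])
            (fun hj => absurd (Finset.mem_univ j) hj), Pi.single_eq_same,
            Finset.sum_eq_single i (fun b _ hb => by rw [Pi.single_eq_of_ne hb, zero_mul])
            (fun hj => absurd (Finset.mem_univ i) hj), Pi.single_eq_same] at this
        rw [mul_sub, ← mul_assoc]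
        exact this
      obtain ⟨ρ, hρ, hρM, hρx⟩ := V_common_right hM hL hR Finset.univ _ fun j _ => hV j
      refine ⟨ρ, hρ, hρM, Pi.single i ρ, ?_, ?_, ?_⟩
      · simp
      · intro k hk
        have : k ≠ i := by rintro rfl; exact hi hk
        rw [Pi.single_eq_of_ne this]
      · intro k j
        by_cases hk : k = i
        · subst hk; rw [Pi.single_eq_same]; exact hρx j (Finset.mem_univ _)
        · rw [Pi.single_eq_of_ne hk, mul_zero]; exact A.zero_mem
  obtain ⟨c, hc, h0, h1⟩ := key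
  refine ⟨-∑ i, (a i)⁻¹ * h i * c i, fun j => ?_⟩
  have : h j + a j * -∑ i, (a i)⁻¹ * h i * c i = ∑ i, (h j - a j * (a i)⁻¹ * h i) * c i := by
    simp only [sub_mul, Finset.sum_sub_distrib]
    rw [← Finset.mul_sum, hc, mul_one, mul_neg, Finset.mul_sum, sub_eq_add_neg]
    congr 2
    refine Finset.sum_congr rfl fun i _ => ?_
    simp only [mul_assoc]
  rw [this]
  exact A.sum_mem fun i _ => h1 i j

end K

end Pool.Agent.H44SH
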