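import Pool.Agent.Helper44.SH.Ext

set_option autoImplicit false

namespace Pool.Agent.H44SH

universe u

/-- the left linear functional `x ↦ ∑ xᵢ aᵢ` -/
def ell {R : Type u} [Ring R] {ι : Type} [Fintype ι] (a : ι → R) : (ι → R) →ₗ[R] R where
  toFun x := ∑ i, x i * a i
  map_add' x y := by simp [add_mul, Finset.sum_add_distrib]
  map_smul' c x := by simp [mul_assoc, Finset.mul_sum]

theorem ell_apply {R : Type u} [Ring R] {ι : Type} [Fintype ι] (a x : ι → R) :
    ell a x = ∑ i, x i * a i := rfl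

theorem ell_single {R : Type u} [Ring R] {ι : Type} [Fintype ι] [DecidableEq ι]
    (a : ι → R) (i : ι) (r : R) : ell a (Pi.single i r) = r * a i := by
  rw [ell_apply, Finset.sum_eq_single i (fun b _ hb => by rw [Pi.single_eq_of_ne hb, zero_mul])
    (fun hj => absurd (Finset.mem_univ i) hj), Pi.single_eq_same]

/-- every functional is of this form -/
theorem eq_ell {R : Type u} [Ring R] {ι : Type} [Fintype ι] [DecidableEq ι]
    (f : (ι → R) →ₗ[R] R) : f = ell (fun i => f (Pi.single i 1)) := by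
  apply LinearMap.pi_ext
  intro i r
  rw [ell_single]
  have : (Pi.single i r : ι → R) = r • Pi.single i 1 := by
    rw [← Pi.single_smul, smul_eq_mul, mul_one]
  rw [this, map_smul, smul_eq_mul]

section frac
variable {R : Type u} [Ring R] [IsDomain R] {K : Type u} [DivisionRing K] (φ : R →+* K)
  {ι : Type} [Fintype ι]

theorem common_left (hφ : Function.Injective φ)
    (hfrac : ∀ x : K, ∃ s a : R, s ≠ 0 ∧ x = (φ s)⁻¹ * φ a) (s : Finset ι) (x : ι → K) :
    ∃ ν : R, ν ≠ 0 ∧ ∀ i ∈ s, ∃ κ : R, φ ν * x i = φ κ := by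
  classical
  induction s using Finset.induction_on with
  | empty => exact ⟨1, one_ne_zero, by simp⟩
  | insert j s hj ih =>
    obtain ⟨ν, hν, h⟩ := ih
    obtain ⟨t, a, ht, e⟩ := hfrac (φ ν * x j)
    have ht' : φ t ≠ 0 := fun h => ht (hφ (by rw [h, map_zero]))
    refine ⟨t * ν, mul_ne_zero ht hν, ?_⟩
    intro i hi
    rcases Finset.mem_insert.1 hi with rfl | hi
    · exact ⟨a, by rw [map_mul, mul_assoc, e, mul_inv_cancel_left₀ ht']⟩
    · obtain ⟨κ, hκ⟩ := h i hi
      exact ⟨t * κ, by rw [map_mul, mul_assoc, hκ, map_mul]⟩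

/-- functionals on the solutions of one equation extend -/
theorem ext_one (hφ : Function.Injective φ)
    (hfrac : ∀ x : K, ∃ s a : R, s ≠ 0 ∧ x = (φ s)⁻¹ * φ a)
    (hL : LP φ.range) (hR : RP φ.range) (a : ι → R)
    (f : LinearMap.ker (ell a) →ₗ[R] R) :
    ∃ g : (ι → R) →ₗ[R] R, ∀ z : LinearMap.ker (ell a), g z = f z := by
  classical
  have hφ0 : ∀ r : R, r ≠ 0 → φ r ≠ 0 := fun r hr h => hr (hφ (by rw [h, map_zero]))
  -- the functional over `K`
  have hex : ∃ h : ι → K, ∀ z : LinearMap.ker (ell a), φ (f z) = ∑ i, φ (z.1 i) * h i := by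
    by_cases hne : ∃ i, a i ≠ 0
    swap
    · push Not at hne
      have htop : ∀ x : ι → R, x ∈ LinearMap.ker (ell a) := fun x => by
        rw [LinearMap.mem_ker, ell_apply]; simp [hne]
      let F : (ι → R) →ₗ[R] R :=
        { toFun := fun x => f ⟨x, htop x⟩
          map_add' := fun x y => by rw [← map_add]; rfl
          map_smul' := fun c x => by rw [RingHom.id_apply, ← map_smul]; rfl }
      refine ⟨fun i => φ (F (Pi.single i 1)), fun z => ?_⟩
      have h1 : f z = F z.1 := rfl
      rw [h1, eq_ell F, ell_apply, map_sum]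
      simp only [map_mul]
      congr 1
      ext i
      rw [← eq_ell F]
    obtain ⟨i₀, hi₀⟩ := hne
    have hlam : ∀ j, ∃ l m : R, l ≠ 0 ∧ l * a j = m * a i₀ := by
      intro j
      obtain ⟨t, b, ht, e⟩ := hfrac (φ (a j) * (φ (a i₀))⁻¹)
      refine ⟨t, b, ht, hφ ?_⟩
      rw [map_mul, map_mul]
      have : φ b = φ t * (φ (a j) * (φ (a i₀))⁻¹) := by
        rw [e, mul_inv_cancel_left₀ (hφ0 t ht)]
      rw [this, mul_assoc, mul_assoc, inv_mul_cancel₀ (hφ0 _ hi₀), mul_one]
    choose l m hl hlm using hlam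
    have hz : ∀ j, (Pi.single j (l j) - Pi.single i₀ (m j) : ι → R) ∈ LinearMap.ker (ell a) := by
      intro j
      rw [LinearMap.mem_ker, map_sub, ell_single, ell_single, hlm, sub_self]
    refine ⟨fun j => (φ (l j))⁻¹ * φ (f ⟨_, hz j⟩), fun z => ?_⟩
    obtain ⟨ν, hν, hκ⟩ := common_left φ hφ hfrac Finset.univ
      (fun j => φ (z.1 j) * (φ (l j))⁻¹)
    choose κ hκ using fun j => hκ j (Finset.mem_univ j)
    have hνz : ∀ j, ν * z.1 j = κ j * l j := by
      intro j
      apply hφ
      rw [map_mul, map_mul, ← hκ, mul_assoc, mul_assoc, inv_mul_cancel₀ (hφ0 _ (hl j)), mul_one]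
    have hsum : ν • z = ∑ j, κ j • (⟨_, hz j⟩ : LinearMap.ker (ell a)) := by
      apply Subtype.ext
      have hd : ∀ w : ι → R, w ∈ LinearMap.ker (ell a) → (∀ j, j ≠ i₀ → w j = 0) → w = 0 := by
        intro w hw hw0
        have : w = Pi.single i₀ (w i₀) := by
          ext j
          by_cases hj : j = i₀
          · subst hj; rw [Pi.single_eq_same]
          · rw [Pi.single_eq_of_ne hj, hw0 j hj]
        rw [this, LinearMap.mem_ker, ell_single] at hw
        rcases mul_eq_zero.1 hw with h | h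
        · rw [this, h, Pi.single_zero]
        · exact absurd h hi₀
      have h0 := hd (ν • z.1 - ∑ j, κ j • (Pi.single j (l j) - Pi.single i₀ (m j) : ι → R))
        (Submodule.sub_mem _ (Submodule.smul_mem _ _ z.2)
          (Submodule.sum_mem _ fun j _ => Submodule.smul_mem _ _ (hz j)))
        (fun j hj => by
          rw [Pi.sub_apply, Finset.sum_apply, Finset.sum_eq_single j]
          · simp only [Pi.smul_apply, Pi.sub_apply, Pi.single_eq_same, smul_eq_mul]
            rw [Pi.single_eq_of_ne hj, sub_zero, hνz, sub_self]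
          · intro b _ hb
            simp only [Pi.smul_apply, Pi.sub_apply, smul_eq_mul]
            rw [Pi.single_eq_of_ne hb.symm, Pi.single_eq_of_ne hj, sub_zero, mul_zero]
          · intro h; exact absurd (Finset.mem_univ j) h)
      rw [sub_eq_zero] at h0
      rw [Submodule.coe_smul, h0, Submodule.coe_sum]
      rfl
    have h1 : φ ν * φ (f z) = φ ν * ∑ j, φ (z.1 j) * ((φ (l j))⁻¹ * φ (f ⟨_, hz j⟩)) := by
      rw [← map_mul, ← smul_eq_mul, ← map_smul, hsum, map_sum, map_sum, Finset.mul_sum]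
      refine Finset.sum_congr rfl fun j _ => ?_
      rw [map_smul, smul_eq_mul, map_mul, ← hκ]
      simp only [mul_assoc]
    exact mul_left_cancel₀ (hφ0 ν hν) h1
  obtain ⟨h, hh⟩ := hex
  obtain ⟨d, hd⟩ := ext_K (A := φ.range) hL hR (fun i => φ (a i)) h (by
    intro x hx hx0
    choose y hy using hx
    have hyk : y ∈ LinearMap.ker (ell a) := by
      rw [LinearMap.mem_ker, ell_apply]
      apply hφ
      rw [map_sum, map_zero, ← hx0]
      refine Finset.sum_congr rfl fun i _ => ?_
      rw [map_mul, hy]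
    have := hh ⟨y, hyk⟩
    refine ⟨f ⟨y, hyk⟩, ?_⟩
    rw [this]
    refine Finset.sum_congr rfl fun i _ => ?_
    rw [hy])
  choose g hg using hd
  refine ⟨ell g, fun z => hφ ?_⟩
  rw [ell_apply, map_sum, hh z]
  have hz0 : ∑ i, φ (z.1 i) * φ (a i) = 0 := by
    have := z.2
    rw [LinearMap.mem_ker, ell_apply] at this
    have h2 := congrArg φ this
    rw [map_sum, map_zero] at h2
    rw [← h2]
    refine Finset.sum_congr rfl fun i _ => ?_
    rw [map_mul]
  calc ∑ i, φ (z.1 i * g i) = ∑ i, (φ (z.1 i) * h i + φ (z.1 i) * φ (a i) * d) := by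
        refine Finset.sum_congr rfl fun i _ => ?_
        rw [map_mul, hg, mul_add, mul_assoc]
    _ = ∑ i, φ (z.1 i) * h i := by
        rw [Finset.sum_add_distrib, ← Finset.sum_mul, hz0, zero_mul, add_zero]

end frac

end Pool.Agent.H44SH
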