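import Pool.Agent.Helper44.SH.Coh

set_option autoImplicit false

namespace Pool.Agent.H44SH

universe u

open CategoryTheory

section pd
variable {R : Type u} [Ring R]

/-- the short exact sequence of a surjection -/
def ses {n : ℕ} {X : Type u} [AddCommGroup X] [Module R X] (π : (Fin n → R) →ₗ[R] X) :
    ShortComplex (ModuleCat.{u} R) :=
  ShortComplex.mk (ModuleCat.ofHom (LinearMap.ker π).subtype) (ModuleCat.ofHom π) (by
    ext z
    exact z.2)

theorem ses_exact {n : ℕ} {X : Type u} [AddCommGroup X] [Module R X]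
    (π : (Fin n → R) →ₗ[R] X) (hπ : Function.Surjective π) : (ses π).ShortExact := by
  refine ShortComplex.ShortExact.mk' ?_ ?_ ?_
  · rw [ShortComplex.moduleCat_exact_iff]
    intro x hx
    exact ⟨⟨x, hx⟩, rfl⟩
  · rw [ModuleCat.mono_iff_injective]
    exact Subtype.val_injective
  · rw [ModuleCat.epi_iff_surjective]
    exact hπ

/-- finitely generated modules that embed in a free module: finite projective dimension forces
projectivity -/
theorem proj_of_pd (h1 : ∀ (n : ℕ) (ℓ : (Fin n → R) →ₗ[R] R), Gd (LinearMap.ker ℓ)) :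
    ∀ (d : ℕ) (X : Type u) [AddCommGroup X] [Module R X] [Module.Finite R X] (k : ℕ)
      (j : X →ₗ[R] (Fin k → R)), Function.Injective j →
      HasProjectiveDimensionLE (ModuleCat.of R X) d → Module.Projective R X := by
  intro d
  induction d with
  | zero =>
    intro X _ _ _ k j hj h
    have : Projective (ModuleCat.of R X) := (projective_iff_hasProjectiveDimensionLE_zero _).2 h
    exact (IsProjective.iff_projective X).2 this
  | succ d ih =>
    intro X _ _ _ k j hj h
    obtain ⟨n, π, hπ⟩ := Module.Finite.exists_fin' R X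
    have hker : LinearMap.ker π = LinearMap.ker (j ∘ₗ π) := by
      rw [LinearMap.ker_comp, LinearMap.ker_eq_bot.2 hj]; rfl
    have hgd : Gd (LinearMap.ker π) := by rw [hker]; exact Gd.ker h1 _
    haveI : Module.Finite R (LinearMap.ker π) := Module.Finite.iff_fg.2 hgd.1
    have hS := ses_exact π hπ
    have hP : Projective (ses π).X₂ :=
      (IsProjective.iff_projective (Fin n → R)).1 inferInstance
    have hX1 : HasProjectiveDimensionLT (ses π).X₁ (d + 1) :=
      (hS.hasProjectiveDimensionLT_X₃_iff d hP).1 h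
    have hproj := ih (LinearMap.ker π) n (LinearMap.ker π).subtype Subtype.val_injective hX1
    exact proj_of_ker π hπ hgd hproj

open CategoryTheory.Abelian in
/-- `Ext^i(X,R)=0` for `i ≥ 1` and all finitely generated `X` inside a free module -/
theorem ext_vanish (h1 : ∀ (n : ℕ) (ℓ : (Fin n → R) →ₗ[R] R), Gd (LinearMap.ker ℓ)) :
    ∀ (i : ℕ) (X : Type u) [AddCommGroup X] [Module R X] [Module.Finite R X] (k : ℕ)
      (j : X →ₗ[R] (Fin k → R)), Function.Injective j →
      Subsingleton (Ext (ModuleCat.of R X) (ModuleCat.of R R) (i + 1)) := by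
  intro i
  induction i with
  | zero =>
    intro X _ _ _ k j hj
    obtain ⟨n, π, hπ⟩ := Module.Finite.exists_fin' R X
    have hker : LinearMap.ker π = LinearMap.ker (j ∘ₗ π) := by
      rw [LinearMap.ker_comp, LinearMap.ker_eq_bot.2 hj]; rfl
    have hgd : Gd (LinearMap.ker π) := by rw [hker]; exact Gd.ker h1 _
    have hS := ses_exact π hπ
    have hP : Projective (ses π).X₂ :=
      (IsProjective.iff_projective (Fin n → R)).1 inferInstance
    refine subsingleton_of_forall_eq 0 fun x => ?_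
    obtain ⟨x₁, rfl⟩ := Ext.contravariant_sequence_exact₃ hS (ModuleCat.of R R) x
      (Ext.eq_zero_of_hasProjectiveDimensionLT _ 1 le_rfl) (by norm_num : 1 + 0 = 0 + 1)
    obtain ⟨f, rfl⟩ := (Ext.mk₀_bijective _ _).2 x₁
    obtain ⟨g, hg⟩ := hgd.2 f.hom
    have hfg : f = (ses π).f ≫ ModuleCat.ofHom g := by
      ext z
      exact (hg z).symm
    rw [hfg, ← Ext.mk₀_comp_mk₀, ← Ext.comp_assoc_of_second_deg_zero,
      ShortComplex.ShortExact.extClass_comp, Ext.zero_comp]
    rfl
  | succ i ih =>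
    intro X _ _ _ k j hj
    obtain ⟨n, π, hπ⟩ := Module.Finite.exists_fin' R X
    have hker : LinearMap.ker π = LinearMap.ker (j ∘ₗ π) := by
      rw [LinearMap.ker_comp, LinearMap.ker_eq_bot.2 hj]; rfl
    have hgd : Gd (LinearMap.ker π) := by rw [hker]; exact Gd.ker h1 _
    haveI : Module.Finite R (LinearMap.ker π) := Module.Finite.iff_fg.2 hgd.1
    have hS := ses_exact π hπ
    have hP : Projective (ses π).X₂ :=
      (IsProjective.iff_projective (Fin n → R)).1 inferInstance
    have h2 := ih (LinearMap.ker π) n (LinearMap.ker π).subtype Subtype.val_injective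
    refine subsingleton_of_forall_eq 0 fun x => ?_
    obtain ⟨x₁, rfl⟩ := Ext.contravariant_sequence_exact₃ hS (ModuleCat.of R R) x
      (Ext.eq_zero_of_hasProjectiveDimensionLT _ 1 (by omega)) (by omega : 1 + (i + 1) = i + 1 + 1)
    have : x₁ = 0 := h2.elim _ _
    rw [this, Ext.comp_zero]
    rfl

end pd

/-- the two distributivity hypotheses give the extension property -/
theorem gd_of_elem (R : Type u) [Ring R] [IsDomain R]
    (hL : ∀ a b : R, ∃ s t u v : R, s + t = 1 ∧ s * a = u * b ∧ t * b = v * a)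
    (hR : ∀ a b : R, ∃ s t u v : R, s + t = 1 ∧ a * s = b * u ∧ b * t = a * v) :
    ∀ (n : ℕ) (ℓ : (Fin n → R) →ₗ[R] R), Gd (LinearMap.ker ℓ) := by
  obtain ⟨K, hK, φ, hφ, hfrac⟩ := exists_frac R hL
  have hRP : RP φ.range := frac_RP φ hφ hfrac hR
  have hLP : LP φ.range := frac_LP φ hφ hfrac hR hL
  intro n ℓ
  rw [eq_ell ℓ]
  exact ⟨fg_one φ hφ hLP hRP hL _, fun f => ext_one φ hφ hfrac hLP hRP _ f⟩

open MulOpposite in
theorem gd_op (R : Type u) [Ring R] [IsDomain R]
    (hL : ∀ a b : R, ∃ s t u v : R, s + t = 1 ∧ s * a = u * b ∧ t * b = v * a)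
    (hR : ∀ a b : R, ∃ s t u v : R, s + t = 1 ∧ a * s = b * u ∧ b * t = a * v) :
    ∀ (n : ℕ) (ℓ : (Fin n → Rᵐᵒᵖ) →ₗ[Rᵐᵒᵖ] Rᵐᵒᵖ), Gd (LinearMap.ker ℓ) := by
  refine gd_of_elem Rᵐᵒᵖ (fun a b => ?_) (fun a b => ?_)
  · obtain ⟨s, t, u, v, h1, h2, h3⟩ := hR a.unop b.unop
    exact ⟨op s, op t, op u, op v, by rw [← MulOpposite.op_add, h1, MulOpposite.op_one],
      unop_injective (by simpa using h2), unop_injective (by simpa using h3)⟩
  · obtain ⟨s, t, u, v, h1, h2, h3⟩ := hL a.unop b.unop
    exact ⟨op s, op t, op u, op v, by rw [← MulOpposite.op_add, h1, MulOpposite.op_one],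
      unop_injective (by simpa using h2), unop_injective (by simpa using h3)⟩

/-- `R` as a right module over itself is `Rᵐᵒᵖ` as a left module over itself -/
def opE (R : Type u) [Ring R] : R ≃ₗ[Rᵐᵒᵖ] Rᵐᵒᵖ where
  toFun := MulOpposite.op
  invFun := MulOpposite.unop
  left_inv _ := rfl
  right_inv _ := rfl
  map_add' _ _ := rfl
  map_smul' _ _ := rfl

/-- coordinatewise -/
def opEn (R : Type u) [Ring R] (n : ℕ) : (Fin n → R) →ₗ[Rᵐᵒᵖ] (Fin n → Rᵐᵒᵖ) :=
  LinearMap.pi fun i => (opE R).toLinearMap ∘ₗ LinearMap.proj i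

theorem opEn_inj (R : Type u) [Ring R] (n : ℕ) : Function.Injective (opEn R n) := by
  intro x y h
  ext i
  exact (opE R).injective (congrFun h i)

open CategoryTheory.Abelian in
theorem ext_transport {C : Type*} [Category C] [Abelian C] [HasExt C] {X Y Y' : C}
    (e : Y ≅ Y') (n : ℕ) (h : Subsingleton (Ext X Y n)) : Subsingleton (Ext X Y' n) := by
  refine subsingleton_of_forall_eq 0 fun x => ?_
  have h1 : x.comp (Ext.mk₀ e.inv) (add_zero n) = 0 := h.elim _ _
  have h2 := congrArg (fun y => y.comp (Ext.mk₀ e.hom) (add_zero n)) h1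
  simp only [Ext.comp_assoc_of_third_deg_zero, Ext.mk₀_comp_mk₀, Ext.zero_comp] at h2
  rw [e.inv_hom_id, Ext.comp_mk₀_id] at h2
  exact h2

end Pool.Agent.H44SH
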